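import Mathlib

/-!
# Tree embeddings of the Cantor space

A tree embedding `τ` maps finite binary words to finite binary words so that `τ (s ++ [b])` extends
`τ s ++ [b]`. It induces an injective continuous map `τ.act` of the Cantor space. `Lev k τ` says
that `τ` is the identity on the words of length less than `k`. We prove the fusion lemma.
-/

set_option autoImplicit false

namespace Pool.Agent.T2H65.BG

open Set

/-- finite binary words -/
abbrev W := List Bool

/-- the points of the Cantor space -/
abbrev K := ℕ → Bool

/-- the initial segment of `a` of length `n` -/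
def pre (a : K) (n : ℕ) : W := (List.range n).map a

@[simp] theorem pre_length (a : K) (n : ℕ) : (pre a n).length = n := by simp [pre]

@[simp] theorem pre_zero (a : K) : pre a 0 = [] := rfl

theorem pre_succ (a : K) (n : ℕ) : pre a (n + 1) = pre a n ++ [a n] := by
  simp [pre, List.range_succ]

theorem pre_getD (a : K) {n i : ℕ} (h : i < n) : (pre a n).getD i false = a i := by
  rw [List.getD_eq_getElem _ _ (by simpa using h)]
  simp [pre]

theorem pre_eq_iff {a b : K} {n : ℕ} : pre a n = pre b n ↔ ∀ i < n, a i = b i := by
  simp [pre, List.map_inj_left]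

theorem pre_prefix (a : K) {m n : ℕ} (h : m ≤ n) : pre a m <+: pre a n := by
  induction n, h using Nat.le_induction with
  | base => exact List.prefix_rfl
  | succ n _ ih =>
    rw [pre_succ]
    exact ih.trans (List.prefix_append _ _)

theorem getD_of_prefix {s t : W} (h : s <+: t) {i : ℕ} (hi : i < s.length) :
    t.getD i false = s.getD i false := by
  obtain ⟨u, rfl⟩ := h
  rw [List.getD_append _ _ _ _ hi]

/-- `s` is an initial segment of the point `x` -/
def IsPre (s : W) (x : K) : Prop := pre x s.length = s

theorem isPre_iff {s : W} {x : K} : IsPre s x ↔ ∀ i < s.length, s.getD i false = x i := by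
  constructor
  · intro h i hi
    conv_lhs => rw [← h]
    exact pre_getD x hi
  · intro h
    apply List.ext_getElem
    · simp
    · intro i h1 h2
      have h3 := h i h2
      rw [List.getD_eq_getElem _ _ h2] at h3
      rw [h3]
      simp [pre]

theorem isPre_pre (x : K) (n : ℕ) : IsPre (pre x n) x := by
  simp [IsPre]

theorem IsPre.of_prefix {s t : W} {x : K} (h : IsPre t x) (hst : s <+: t) : IsPre s x := by
  rw [isPre_iff] at h ⊢
  intro i hi
  rw [← h i (hi.trans_le hst.length_le), getD_of_prefix hst hi]

/-- two points with arbitrarily long common initial segments are equal -/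
theorem eq_of_isPre {x y : K} (h : ∀ n, ∃ s : W, n ≤ s.length ∧ IsPre s x ∧ IsPre s y) :
    x = y := by
  funext n
  obtain ⟨s, h1, h2, h3⟩ := h (n + 1)
  rw [isPre_iff] at h2 h3
  rw [← h2 n (by omega), ← h3 n (by omega)]

/-- A tree embedding. -/
@[ext] structure Emb where
  /-- the underlying map of words -/
  f : W → W
  ext' : ∀ s b, (f s ++ [b]) <+: f (s ++ [b])

namespace Emb

theorem mono (τ : Emb) {s t : W} (h : s <+: t) : τ.f s <+: τ.f t := by
  obtain ⟨u, rfl⟩ := h
  induction u using List.reverseRecOn with
  | nil => simp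
  | append_singleton u b ih =>
    rw [← List.append_assoc]
    exact ih.trans ((List.prefix_append _ _).trans (τ.ext' _ _))

theorem len (τ : Emb) (s : W) : s.length ≤ (τ.f s).length := by
  induction s using List.reverseRecOn with
  | nil => simp
  | append_singleton u b ih =>
    have := (τ.ext' u b).length_le
    simp only [List.length_append, List.length_singleton] at this ⊢
    omega

/-- the induced map of the Cantor space -/
def act (τ : Emb) (a : K) : K := fun n => (τ.f (pre a (n + 1))).getD n false

theorem isPre_act (τ : Emb) (a : K) (n : ℕ) : IsPre (τ.f (pre a n)) (τ.act a) := by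
  rw [isPre_iff]
  intro i hi
  unfold act
  have h1 : i < (τ.f (pre a (i + 1))).length := by
    have := τ.len (pre a (i + 1))
    rw [pre_length] at this
    omega
  rcases le_total n (i + 1) with h | h
  · exact (getD_of_prefix (τ.mono (pre_prefix a h)) hi).symm
  · exact getD_of_prefix (τ.mono (pre_prefix a h)) h1

/-- the characterization of the induced map -/
theorem act_unique (τ : Emb) (a x : K) (h : ∀ n, IsPre (τ.f (pre a n)) x) : τ.act a = x := by
  apply eq_of_isPre
  intro n
  refine ⟨τ.f (pre a n), ?_, τ.isPre_act a n, h n⟩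
  have := τ.len (pre a n)
  rwa [pre_length] at this

/-- the identity -/
def one : Emb := ⟨fun s => s, fun _ _ => List.prefix_rfl⟩

@[simp] theorem one_f (s : W) : one.f s = s := rfl

@[simp] theorem act_one (a : K) : one.act a = a :=
  act_unique _ _ _ fun n => isPre_pre a n

/-- composition -/
def comp (σ τ : Emb) : Emb :=
  ⟨fun s => σ.f (τ.f s), fun s b => (σ.ext' (τ.f s) b).trans (σ.mono (τ.ext' s b))⟩

@[simp] theorem comp_f (σ τ : Emb) (s : W) : (σ.comp τ).f s = σ.f (τ.f s) := rfl

@[simp] theorem act_comp (σ τ : Emb) (a : K) : (σ.comp τ).act a = σ.act (τ.act a) := by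
  apply act_unique
  intro n
  have h1 := τ.isPre_act a n
  have h2 := σ.isPre_act (τ.act a) (τ.f (pre a n)).length
  rw [h1] at h2
  exact h2

theorem comp_assoc (ρ σ τ : Emb) : (ρ.comp σ).comp τ = ρ.comp (σ.comp τ) := rfl

@[simp] theorem comp_one (σ : Emb) : σ.comp one = σ := rfl

@[simp] theorem one_comp (σ : Emb) : one.comp σ = σ := rfl

theorem act_injective (τ : Emb) : Function.Injective τ.act := by
  intro a b hab
  by_contra hne
  have h1 : ∃ n, a n ≠ b n := by
    by_contra hcon
    push Not at hcon
    exact hne (funext hcon)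
  classical
  let n := Nat.find h1
  have hn : a n ≠ b n := Nat.find_spec h1
  have hlt : ∀ i < n, a i = b i := fun i hi => by
    by_contra hcon
    exact Nat.find_min h1 hi hcon
  have hpre : pre a n = pre b n := pre_eq_iff.2 hlt
  have key : ∀ c : K, pre c n = pre a n → τ.act c (τ.f (pre a n)).length = c n := by
    intro c hc
    have h2 := τ.isPre_act c (n + 1)
    rw [pre_succ, hc] at h2
    have h3 := h2.of_prefix (τ.ext' (pre a n) (c n))
    rw [isPre_iff] at h3
    rw [← h3 _ (by simp)]
    simp
  apply hn
  rw [← key a rfl, ← key b hpre.symm, hab]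

theorem act_congr (τ : Emb) {a b : K} {n : ℕ} (h : ∀ i < n, a i = b i) :
    ∀ i < n, τ.act a i = τ.act b i := by
  intro i hi
  unfold act
  rw [pre_eq_iff.2 (fun j hj => h j (by omega))]

theorem continuous_act (τ : Emb) : Continuous τ.act := by
  apply continuous_pi
  intro i
  have h1 : (fun a : K => τ.act a i) =
      (fun s : Fin (i + 1) → Bool => (τ.f (List.ofFn s)).getD i false) ∘
        (fun a : K => fun j : Fin (i + 1) => a j) := by
    funext a
    simp only [Function.comp, act]
    congr 3
    apply List.ext_getElem
    · simp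
    · intro j h1 h2
      rw [List.getElem_ofFn]
      simp [pre]
  rw [h1]
  apply Continuous.comp
  · exact continuous_of_discreteTopology
  · exact continuous_pi fun j => continuous_apply _

end Emb

/-- `τ` is the identity on the words of length less than `k` -/
def Lev (k : ℕ) (τ : Emb) : Prop := ∀ s : W, s.length < k → τ.f s = s

theorem Lev.mono {k l : ℕ} {τ : Emb} (h : Lev l τ) (hkl : k ≤ l) : Lev k τ :=
  fun s hs => h s (hs.trans_le hkl)

theorem lev_one (k : ℕ) : Lev k Emb.one := fun _ _ => rfl

theorem lev_zero (τ : Emb) : Lev 0 τ := fun s hs => absurd hs (by omega)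

theorem Lev.comp {k : ℕ} {σ τ : Emb} (h1 : Lev k σ) (h2 : Lev k τ) : Lev k (σ.comp τ) := by
  intro s hs
  rw [Emb.comp_f, h2 s hs, h1 s hs]

theorem Lev.pre_act {k : ℕ} {τ : Emb} (h : Lev k τ) (a : K) : pre (τ.act a) k = pre a k := by
  cases k with
  | zero => rfl
  | succ m =>
    have h1 := τ.isPre_act a (m + 1)
    rw [pre_succ] at h1
    have h2 := h1.of_prefix (τ.ext' (pre a m) (a m))
    rw [h (pre a m) (by simp)] at h2
    unfold IsPre at h2
    simp only [List.length_append, pre_length, List.length_singleton] at h2
    rw [h2, pre_succ]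

theorem Lev.act_eq {k : ℕ} {τ : Emb} (h : Lev k τ) (a : K) : ∀ i < k, τ.act a i = a i :=
  pre_eq_iff.1 (h.pre_act a)

/-! ### Fusion -/

/-- `ρ 0 ∘ ⋯ ∘ ρ (n - 1)` -/
def it (ρ : ℕ → Emb) : ℕ → Emb
  | 0 => Emb.one
  | n + 1 => (it ρ n).comp (ρ n)

@[simp] theorem it_zero (ρ : ℕ → Emb) : it ρ 0 = Emb.one := rfl

theorem it_succ (ρ : ℕ → Emb) (n : ℕ) : it ρ (n + 1) = (it ρ n).comp (ρ n) := rfl

theorem it_succ' (ρ : ℕ → Emb) (n : ℕ) :
    it ρ (n + 1) = (ρ 0).comp (it (fun i => ρ (i + 1)) n) := by
  induction n with
  | zero => rfl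
  | succ n ih =>
    rw [it_succ, ih, it_succ]
    rfl

theorem it_lev {ρ : ℕ → Emb} {k : ℕ} (h : ∀ i, Lev k (ρ i)) (n : ℕ) : Lev k (it ρ n) := by
  induction n with
  | zero => exact lev_one k
  | succ n ih => exact ih.comp (h n)

theorem it_stable {ρ : ℕ → Emb} (h : ∀ i, Lev (i + 1) (ρ i)) {s : W} {n : ℕ}
    (hn : s.length ≤ n) : (it ρ n).f s = (it ρ s.length).f s := by
  induction n, hn using Nat.le_induction with
  | base => rfl
  | succ n hn ih =>
    rw [it_succ, Emb.comp_f, h n s (by omega), ih]

/-- the limit of a fusion sequence -/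
def lim (ρ : ℕ → Emb) (h : ∀ i, Lev (i + 1) (ρ i)) : Emb where
  f s := (it ρ s.length).f s
  ext' s b := by
    have h1 := it_stable h (s := s) (n := s.length + 1) (by omega)
    rw [← h1]
    simp only [List.length_append, List.length_singleton]
    exact (it ρ (s.length + 1)).ext' s b

theorem lim_f (ρ : ℕ → Emb) (h : ∀ i, Lev (i + 1) (ρ i)) (s : W) :
    (lim ρ h).f s = (it ρ s.length).f s := rfl

theorem lim_lev {ρ : ℕ → Emb} (h : ∀ i, Lev (i + 1) (ρ i)) {k : ℕ} (hk : ∀ i, Lev k (ρ i)) :
    Lev k (lim ρ h) := fun s hs => it_lev hk s.length s hs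

theorem shift_lev {ρ : ℕ → Emb} (h : ∀ i, Lev (i + 1) (ρ i)) (n : ℕ) :
    ∀ i, Lev (i + 1) (ρ (n + i)) := fun i => (h (n + i)).mono (by omega)

theorem lim_unfold (ρ : ℕ → Emb) (h : ∀ i, Lev (i + 1) (ρ i)) :
    lim ρ h = (ρ 0).comp (lim (fun i => ρ (i + 1)) fun i => (h (i + 1)).mono (by omega)) := by
  apply Emb.ext
  funext s
  rw [lim_f, Emb.comp_f, lim_f, ← Emb.comp_f, ← it_succ']
  exact (it_stable h (by omega)).symm

theorem lim_split (ρ : ℕ → Emb) (h : ∀ i, Lev (i + 1) (ρ i)) (n : ℕ) :
    lim ρ h = (it ρ n).comp (lim (fun i => ρ (n + i)) (shift_lev h n)) := by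
  induction n with
  | zero =>
    have : (fun i => ρ (0 + i)) = ρ := by funext i; rw [Nat.zero_add]
    simp only [it_zero, Emb.one_comp, this]
  | succ n ih =>
    rw [ih, lim_unfold (fun i => ρ (n + i)), it_succ, Emb.comp_assoc]
    congr 2
    have : (fun i => ρ (n + (i + 1))) = fun i => ρ (n + 1 + i) := by
      funext i
      congr 1
      omega
    simp only [this]

/-! ### Shifts and grafts -/

/-- the shift `t ↦ u ++ t` -/
def sh (u : W) : Emb := ⟨fun t => u ++ t, fun s b => by simp [List.append_assoc]⟩

@[simp] theorem sh_f (u t : W) : (sh u).f t = u ++ t := rfl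

theorem isPre_sh (u : W) (a : K) : IsPre u ((sh u).act a) := by
  have := (sh u).isPre_act a 0
  simpa using this

/-- replace the identity above each word `s` of length `n` by `η s` -/
def graft (n : ℕ) (η : W → Emb) : Emb where
  f t := if t.length < n then t else t.take n ++ (η (t.take n)).f (t.drop n)
  ext' t b := by
    by_cases h1 : t.length + 1 < n
    · have h2 : t.length < n := by omega
      simp [h1, h2]
    · by_cases h2 : t.length < n
      · have h3 : (t ++ [b]).take n = t ++ [b] := by
          apply List.take_of_length_le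
          simp only [List.length_append, List.length_singleton]
          omega
        simp only [h2, if_true, List.length_append, List.length_singleton, h1, if_false, h3]
        exact List.prefix_append _ _
      · have h3 : (t ++ [b]).take n = t.take n := List.take_append_of_le_length (by omega)
        have h4 : (t ++ [b]).drop n = t.drop n ++ [b] := List.drop_append_of_le_length (by omega)
        simp only [h2, if_false, List.length_append, List.length_singleton, h1, h3, h4,
          List.append_assoc]
        exact (List.prefix_append_right_inj _).2 ((η (t.take n)).ext' _ _)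

theorem graft_lev (n : ℕ) (η : W → Emb) : Lev n (graft n η) := by
  intro s hs
  simp [graft, hs]

theorem act_graft (n : ℕ) (η : W → Emb) (a : K) :
    (graft n η).act a = (sh (pre a n)).act ((η (pre a n)).act fun i => a (n + i)) := by
  rw [← Emb.act_comp]
  apply eq_of_isPre
  intro m
  refine ⟨(graft n η).f (pre a (n + m)), ?_, (graft n η).isPre_act a (n + m), ?_⟩
  · have := (graft n η).len (pre a (n + m))
    rw [pre_length] at this
    omega
  · have h1 : pre a (n + m) = pre a n ++ pre (fun i => a (n + i)) m := by
      induction m with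
      | zero => simp
      | succ m ih => rw [← Nat.add_assoc, pre_succ, ih, pre_succ, List.append_assoc]
    have h2 : (graft n η).f (pre a (n + m)) =
        ((sh (pre a n)).comp (η (pre a n))).f (pre (fun i => a (n + i)) m) := by
      have h3 : (pre a n ++ pre (fun i => a (n + i)) m).take n = pre a n := by
        rw [List.take_append_of_le_length (by simp)]
        exact List.take_of_length_le (by simp)
      have h4 : (pre a n ++ pre (fun i => a (n + i)) m).drop n = pre (fun i => a (n + i)) m := by
        rw [List.drop_append_of_le_length (by simp)]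
        simp
      have h5 : ¬ (pre a n ++ pre (fun i => a (n + i)) m).length < n := by simp
      simp only [graft, h1, h3, h4, h5, if_false, Emb.comp_f, sh_f]
    rw [h2]
    exact Emb.isPre_act _ _ _

end Pool.Agent.T2H65.BG
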