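import Pool.Agent.T2H65.BG.KM

/-!
# Simultaneous fusion
-/

set_option autoImplicit false

namespace Pool.Agent.T2H65.BG

open Set Topology Filter

/-- the pieces considered at stage `n`: a tree with index at most `n` and a node of level
`n + 1` -/
abbrev Pc (n : ℕ) : Type := Fin (n + 1) × (Fin (n + 1) → Bool)

/-- `a` lies above the node of the piece `p` -/
def At (n : ℕ) (p : Pc n) (a : K) : Prop := ∀ i : Fin (n + 1), a i = p.2 i

theorem At.congr {n : ℕ} {p : Pc n} {a b : K} (h : At n p a) (hab : ∀ i < n + 1, b i = a i) :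
    At n p b := fun i => (hab i i.2).trans (h i)

theorem At.pre_eq {n : ℕ} {p : Pc n} {a : K} (h : At n p a) : pre a (n + 1) = List.ofFn p.2 := by
  apply List.ext_getElem
  · simp
  · intro i h1 h2
    rw [List.getElem_ofFn]
    have h3 : i < n + 1 := by simpa using h1
    rw [← h ⟨i, h3⟩]
    simp [pre]

theorem continuous_actJ {J : Type*} (η : J → Emb) : Continuous (actJ η) :=
  continuous_pi fun j => (η j).continuous_act.comp (continuous_apply j)

theorem fusion_step (τ : ℕ → Emb) (n : ℕ) (S : ℕ → Set (Pc n → K))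
    (hS : ∀ i, MeasurableSet (S i))
    (hcov : ∀ y : Pc n → K, (∀ p, ∃ a, y p = (τ p.1).act a) → ∃ i, y ∈ S i) (R : ℕ → Emb) :
    ∃ (ζ : ℕ → Emb) (i : ℕ), (∀ j, Lev (n + 1) (ζ j)) ∧ (∀ j, n < j → ζ j = Emb.one) ∧
      ∀ a : Pc n → K, (∀ p, At n p (a p)) →
        (fun p : Pc n => (τ p.1).act ((R p.1).act ((ζ p.1).act (a p)))) ∈ S i := by
  classical
  let φ : Pc n → Emb := fun p => ((τ p.1).comp (R p.1)).comp (sh (List.ofFn p.2))
  obtain ⟨i, η, hη⟩ := one_step (fun i => actJ φ ⁻¹' S i)
    (fun i => (continuous_actJ φ).measurable (hS i)) (by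
      intro y
      apply hcov
      intro p
      exact ⟨_, by simp only [actJ, φ, Emb.act_comp]; rfl⟩)
  refine ⟨fun j => if h : j < n + 1 then
    graft (n + 1) (fun w => η (⟨j, h⟩, fun i => w.getD i false)) else Emb.one, i, ?_, ?_, ?_⟩
  · intro j
    by_cases h : j < n + 1
    · simp only [h, dif_pos]
      exact graft_lev _ _
    · simp only [h, dif_neg, not_false_eq_true]
      exact lev_one _
  · intro j hj
    have h : ¬ j < n + 1 := by omega
    simp only [h, dif_neg, not_false_eq_true]
  · intro a ha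
    have h1 := hη (fun p i => a p (n + 1 + i))
    simp only [mem_preimage] at h1
    convert h1 using 1
    funext p
    have h2 : (p.1 : ℕ) < n + 1 := p.1.2
    simp only [actJ, φ, Emb.act_comp, h2, dif_pos, act_graft, (ha p).pre_eq]
    congr 4
    have h3 : (fun i : Fin (n + 1) => (List.ofFn p.2).getD i false) = p.2 := by
      funext i
      rw [List.getD_eq_getElem _ _ (by simp; omega), List.getElem_ofFn]
    rw [h3]

/-- The simultaneous fusion. -/
theorem fusion (τ : ℕ → Emb) (S : ∀ n, ℕ → Set (Pc n → K))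
    (hS : ∀ n i, MeasurableSet (S n i))
    (hcov : ∀ n, ∀ y : Pc n → K, (∀ p, ∃ a, y p = (τ p.1).act a) → ∃ i, y ∈ S n i) :
    ∃ (ρ : ℕ → Emb) (s : ℕ → ℕ), (∀ j, Lev j (ρ j)) ∧
      ∀ n, ∀ a : Pc n → K, (∀ p, At n p (a p)) →
        (fun p : Pc n => (τ p.1).act ((ρ p.1).act (a p))) ∈ S n (s n) := by
  choose ζ σ h1 h2 h3 using fun n R => fusion_step τ n (S n) (hS n) (hcov n) R
  let R : ℕ → ℕ → Emb := fun n => Nat.rec (fun _ => Emb.one)
    (fun n r j => (r j).comp (ζ n r j)) n
  have hR : ∀ n j, R (n + 1) j = (R n j).comp (ζ n (R n) j) := fun _ _ => rfl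
  have hit : ∀ n j, it (fun m => ζ m (R m) j) n = R n j := by
    intro n j
    induction n with
    | zero => rfl
    | succ n ih => rw [it_succ, ih, hR]
  have hlev : ∀ j i, Lev (i + 1) (ζ i (R i) j) := fun j i => h1 i (R i) j
  refine ⟨fun j => lim (fun m => ζ m (R m) j) (hlev j), fun n => σ n (R n), fun j => ?_,
    fun n a ha => ?_⟩
  · apply lim_lev
    intro i
    by_cases hij : i < j
    · have := h2 i (R i) j hij
      rw [this]
      exact lev_one _
    · exact (h1 i (R i) j).mono (by omega)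
  · have key : ∀ j, lim (fun m => ζ m (R m) j) (hlev j) =
        ((R n j).comp (ζ n (R n) j)).comp (lim (fun i => ζ (n + 1 + i) (R (n + 1 + i)) j)
          (shift_lev (hlev j) (n + 1))) := by
      intro j
      rw [lim_split _ _ (n + 1), it_succ, hit]
    have h4 := h3 n (R n) (fun p => (lim (fun i => ζ (n + 1 + i) (R (n + 1 + i)) p.1)
          (shift_lev (hlev p.1) (n + 1))).act (a p)) (by
      intro p
      apply (ha p).congr
      apply Lev.act_eq
      apply lim_lev
      intro i
      exact (hlev p.1 (n + 1 + i)).mono (by omega))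
    convert h4 using 1
    funext p
    change (τ p.1).act ((lim (fun m => ζ m (R m) p.1) (hlev p.1)).act (a p)) = _
    rw [key]
    simp only [Emb.act_comp]

end Pool.Agent.T2H65.BG
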