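import Pool.Agent.T2H65.BG.Fusion

/-!
# The dichotomy for one sequence of countable families of Borel sets
-/

set_option autoImplicit false

namespace Pool.Agent.T2H65.BG

open Set Topology Filter

section rep

variable {H : Type*} [AddCommGroup H] (e : K → H)

/-- the subgroup generated by the image of `X` -/
def Gp (X : Set K) : AddSubgroup H := AddSubgroup.closure (e '' X)

theorem gp_mono {X Y : Set K} (h : X ⊆ Y) : Gp e X ≤ Gp e Y :=
  AddSubgroup.closure_mono (image_mono h)

theorem mem_gp {X : Set K} {x : K} (h : x ∈ X) : e x ∈ Gp e X :=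
  AddSubgroup.subset_closure (mem_image_of_mem e h)

/-- the elements of the group generated by `X ∪ R` -/
theorem gp_rep {X R : Set K} {g : H} (hg : g ∈ Gp e (X ∪ R)) :
    ∃ h ∈ Gp e X, ∃ l : K →₀ ℤ, (∀ x ∈ l.support, x ∈ R) ∧ g = h + l.sum fun x z => z • e x := by
  classical
  unfold Gp at hg
  induction hg using AddSubgroup.closure_induction with
  | mem g hg =>
    obtain ⟨x, hx, rfl⟩ := hg
    rcases hx with hx | hx
    · exact ⟨e x, mem_gp e hx, 0, by simp, by simp⟩
    · refine ⟨0, zero_mem _, Finsupp.single x 1, ?_, by simp⟩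
      intro y hy
      have := Finsupp.support_single_subset hy
      rw [Finset.mem_singleton] at this
      rwa [this]
  | zero => exact ⟨0, zero_mem _, 0, by simp, by simp⟩
  | add g g' _ _ ih ih' =>
    obtain ⟨h, hh, l, hl, rfl⟩ := ih
    obtain ⟨h', hh', l', hl', rfl⟩ := ih'
    refine ⟨h + h', add_mem hh hh', l + l', ?_, ?_⟩
    · intro x hx
      rcases Finset.mem_union.1 (Finsupp.support_add hx) with h1 | h1
      · exact hl x h1
      · exact hl' x h1
    · rw [Finsupp.sum_add_index' (by simp) (by intro a b c; rw [add_smul])]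
      abel
  | neg g _ ih =>
    obtain ⟨h, hh, l, hl, rfl⟩ := ih
    refine ⟨-h, neg_mem hh, -l, ?_, ?_⟩
    · intro x hx
      rw [Finsupp.support_neg] at hx
      exact hl x hx
    · rw [Finsupp.sum_neg_index (by simp)]
      simp only [neg_smul, Finsupp.sum_neg, neg_add]

theorem gp_finite {X R : Set K} {g : H} (hg : g ∈ Gp e (X ∪ R)) :
    ∃ Y : Set K, Y.Finite ∧ Y ⊆ R ∧ g ∈ Gp e (X ∪ Y) := by
  obtain ⟨h, hh, l, hl, rfl⟩ := gp_rep e hg
  refine ⟨l.support, l.support.finite_toSet, fun x hx => hl x hx, ?_⟩
  refine add_mem (gp_mono e subset_union_left hh) ?_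
  refine sum_mem fun x hx => zsmul_mem (mem_gp e ?_) _
  exact Or.inr hx

theorem gp_countable {X : Set K} (hX : X.Countable) : (Gp e X : Set H).Countable := by
  have : Countable X := hX
  have h1 : Countable (Submodule.span ℤ (range fun x : X => e x)) := inferInstance
  have h2 : (Gp e X : Set H) = (Submodule.span ℤ (range fun x : X => e x) : Set H) := by
    have h3 : e '' X = range fun x : X => e x := by
      rw [image_eq_range]
    unfold Gp
    rw [h3, ← Submodule.span_int_eq_addSubgroupClosure]
    rfl
  rw [h2]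
  exact h1

end rep

section

variable {H : Type*} [AddCommGroup H] [TopologicalSpace H] [IsTopologicalAddGroup H]
  [SecondCountableTopology H] [MeasurableSpace H] [BorelSpace H] {e : K → H} (he : Continuous e)

/-- the union of the ranges of the maps in `P` -/
def Rg (P : Set Emb) : Set K := {x | ∃ τ ∈ P, ∃ a, τ.act a = x}

include he in
theorem measurable_S {k : ℕ} {V : ℕ → Set (Fin k → H)} (hV : ∀ i, MeasurableSet (V i))
    (hs : ℕ → H) (n i : ℕ) : MeasurableSet {y : Pc n → K |
      ∀ (c : Fin k → Pc n → ℤ) (h : Fin k → Fin (n + 1)), (∀ l p, |c l p| ≤ n) →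
        (fun l => hs (h l) + ∑ p, c l p • e (y p)) ∈ V i} := by
  have h1 : {y : Pc n → K |
      ∀ (c : Fin k → Pc n → ℤ) (h : Fin k → Fin (n + 1)), (∀ l p, |c l p| ≤ n) →
        (fun l => hs (h l) + ∑ p, c l p • e (y p)) ∈ V i} =
      ⋂ (c : Fin k → Pc n → ℤ), ⋂ (h : Fin k → Fin (n + 1)), ⋂ (_ : ∀ l p, |c l p| ≤ n),
        (fun y : Pc n → K => fun l => hs (h l) + ∑ p, c l p • e (y p)) ⁻¹' V i := by
    ext y
    simp only [mem_ofPred_eq, mem_iInter, mem_preimage]
  rw [h1]
  refine MeasurableSet.iInter fun c => MeasurableSet.iInter fun h => MeasurableSet.iInter fun _ =>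
    ?_
  have h2 : Continuous (fun y : Pc n → K => fun l => hs (h l) + ∑ p, c l p • e (y p)) := by
    refine continuous_pi fun l => continuous_const.add (continuous_finsetSum _ fun p _ => ?_)
    exact (he.comp (continuous_apply p)).zsmul (c l p)
  exact h2.measurable (hV i)

/-- the piece of the point `a` in the tree `j` at stage `n` -/
def pc (j : ℕ) (a : K) (n : ℕ) (h : j < n + 1) : Pc n := (⟨j, h⟩, fun i => a i)

theorem sum_finsupp {M : Type*} [AddCommGroup M] {T : Finset K} {l : K →₀ ℤ}
    (h : l.support ⊆ T) (f : K → M) : (l.sum fun x z => z • f x) = ∑ x : T, l x • f x := by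
  rw [Finsupp.sum_of_support_subset l h _ (by simp)]
  exact (Finset.sum_coe_sort T fun x => l x • f x).symm

include he in
/-- The dichotomy. -/
theorem dichotomy {X : Set K} (hX : X.Countable) {P : Set Emb} (hP : P.Countable)
    (hne : P.Nonempty) {k : ℕ} (V : ℕ → ℕ → Set (Fin k → H))
    (hV : ∀ n i, MeasurableSet (V n i)) :
    (∃ (n : ℕ) (F : Set (Fin k → H)) (Y : Set K), F.Finite ∧ Y.Finite ∧ Y ⊆ Rg P ∧
      (∀ g ∈ F, ∀ l, g l ∈ Gp e (X ∪ Y)) ∧ ∀ i, ¬ F ⊆ V n i) ∨
    (∃ (P' : Set Emb) (s : ℕ → ℕ), P'.Countable ∧ P'.Nonempty ∧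
      (∀ τ' ∈ P', ∃ τ ∈ P, ∃ ρ, τ' = τ.comp ρ) ∧
      (∀ τ ∈ P, ∀ k, ∃ τ' ∈ P', ∃ ρ, Lev k ρ ∧ τ' = τ.comp ρ) ∧
      ∀ g : Fin k → H, (∀ l, g l ∈ Gp e (X ∪ Rg P')) → ∀ᶠ n in atTop, g ∈ V n (s n)) := by
  classical
  by_cases hbad : ∃ (n : ℕ) (F : Set (Fin k → H)), F.Finite ∧
      (∀ g ∈ F, ∀ l, g l ∈ Gp e (X ∪ Rg P)) ∧ ∀ i, ¬ F ⊆ V n i
  · left
    obtain ⟨n, F, hF, hFX, hFV⟩ := hbad
    have h1 : ∀ g : Fin k → H, ∀ l, ∃ Y : Set K, Y.Finite ∧ Y ⊆ Rg P ∧
        (g ∈ F → g l ∈ Gp e (X ∪ Y)) := by
      intro g l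
      by_cases hg : g ∈ F
      · obtain ⟨Y, h1, h2, h3⟩ := gp_finite e (hFX g hg l)
        exact ⟨Y, h1, h2, fun _ => h3⟩
      · exact ⟨∅, finite_empty, empty_subset _, fun h => absurd h hg⟩
    choose Y hY1 hY2 hY3 using h1
    refine ⟨n, F, ⋃ g ∈ F, ⋃ l, Y g l, hF, ?_, ?_, ?_, hFV⟩
    · exact hF.biUnion fun g _ => finite_iUnion fun l => hY1 g l
    · exact iUnion₂_subset fun g _ => iUnion_subset fun l => hY2 g l
    · intro g hg l
      refine gp_mono e ?_ (hY3 g l hg)
      apply union_subset_union_right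
      intro x hx
      simp only [mem_iUnion]
      exact ⟨g, hg, l, hx⟩
  · right
    push Not at hbad
    -- enumerations
    obtain ⟨g, hg⟩ := hP.exists_eq_range hne
    let τ : ℕ → Emb := fun j => g (Nat.unpair j).1
    obtain ⟨hs, hhs⟩ := (gp_countable e hX).exists_eq_range ⟨0, zero_mem _⟩
    have hτP : ∀ j, τ j ∈ P := fun j => by rw [hg]; exact mem_range_self _
    let S : ∀ n, ℕ → Set (Pc n → K) := fun n i => {y : Pc n → K |
      ∀ (c : Fin k → Pc n → ℤ) (h : Fin k → Fin (n + 1)), (∀ l p, |c l p| ≤ n) →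
        (fun l => hs (h l) + ∑ p, c l p • e (y p)) ∈ V n i}
    have hS : ∀ n i, MeasurableSet (S n i) := fun n i => measurable_S he (hV n) hs n i
    have hcov : ∀ n, ∀ y : Pc n → K, (∀ p, ∃ a, y p = (τ p.1).act a) → ∃ i, y ∈ S n i := by
      intro n y hy
      let F : Set (Fin k → H) := (fun q : (Fin k → Pc n → ℤ) × (Fin k → Fin (n + 1)) =>
        fun l => hs (q.2 l) + ∑ p, q.1 l p • e (y p)) ''
        ({c : Fin k → Pc n → ℤ | ∀ l p, |c l p| ≤ n} ×ˢ univ)
      have hF : F.Finite := by
        apply Set.Finite.image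
        apply Set.Finite.prod _ finite_univ
        have h1 : {c : Fin k → Pc n → ℤ | ∀ l p, |c l p| ≤ n} ⊆
            {c | ∀ l, c l ∈ {d : Pc n → ℤ | ∀ p, d p ∈ Icc (-(n : ℤ)) n}} := by
          intro c hc l p
          exact abs_le.1 (hc l p)
        refine Set.Finite.subset ?_ h1
        apply Set.Finite.pi'
        intro l
        apply Set.Finite.pi'
        intro p
        exact finite_Icc _ _
      obtain ⟨i, hi⟩ := hbad n F hF (by
        rintro _ ⟨q, _, rfl⟩ l
        refine add_mem ?_ (sum_mem fun p _ => zsmul_mem (mem_gp e ?_) _)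
        · apply gp_mono e subset_union_left
          change hs (q.2 l) ∈ (Gp e X : Set H)
          rw [hhs]
          exact mem_range_self _
        · right
          obtain ⟨a, ha⟩ := hy p
          exact ⟨τ p.1, hτP _, a, ha.symm⟩)
      refine ⟨i, fun c h hc => hi ⟨(c, h), ⟨hc, mem_univ _⟩, rfl⟩⟩
    obtain ⟨ρ, s, hρ, hmain⟩ := fusion τ S hS hcov
    refine ⟨range fun j => (τ j).comp (ρ j), s, countable_range _, range_nonempty _, ?_, ?_, ?_⟩
    · rintro _ ⟨j, rfl⟩
      exact ⟨τ j, hτP j, ρ j, rfl⟩
    · intro σ hσ m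
      rw [hg] at hσ
      obtain ⟨i, rfl⟩ := hσ
      refine ⟨_, ⟨Nat.pair i m, rfl⟩, ρ (Nat.pair i m), (hρ _).mono (Nat.right_le_pair i m), ?_⟩
      simp only [τ, Nat.unpair_pair]
    · intro g hg
      choose h hh L hL hgL using fun l => gp_rep e (hg l)
      let T : Finset K := Finset.univ.biUnion fun l => (L l).support
      have hTsub : ∀ l, (L l).support ⊆ T := fun l =>
        Finset.subset_biUnion_of_mem (fun l => (L l).support) (Finset.mem_univ l)
      have hT : ∀ x : T, ∃ (j : ℕ) (a : K), (τ j).act ((ρ j).act a) = x := by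
        rintro ⟨x, hx⟩
        obtain ⟨l, _, hl⟩ := Finset.mem_biUnion.1 hx
        obtain ⟨_, ⟨j, rfl⟩, a, ha⟩ := hL l x hl
        refine ⟨j, a, ?_⟩
        rw [← Emb.act_comp]
        exact ha
      choose j a ha using hT
      have hhs' : ∀ l, ∃ m, hs m = h l := by
        intro l
        have : h l ∈ (Gp e X : Set H) := hh l
        rw [hhs] at this
        exact this
      choose m hm using hhs'
      -- large `n`
      have ev1 : ∀ᶠ n : ℕ in atTop, ∀ x : T, j x < n + 1 :=
        eventually_all.2 fun x => by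
          filter_upwards [eventually_ge_atTop (j x)] with n hn
          omega
      have ev2 : ∀ᶠ n : ℕ in atTop, ∀ l, m l < n + 1 :=
        eventually_all.2 fun l => by
          filter_upwards [eventually_ge_atTop (m l)] with n hn
          omega
      have ev3 : ∀ᶠ n : ℕ in atTop, ∀ l, ∀ x : T, |L l x| ≤ n :=
        eventually_all.2 fun l => eventually_all.2 fun x => by
          filter_upwards [eventually_ge_atTop (|L l x|).toNat] with n hn
          have := Int.self_le_toNat |L l x|
          omega
      have ev4 : ∀ᶠ n : ℕ in atTop, ∀ x y : T, x ≠ y → j x = j y →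
          ∃ i : Fin (n + 1), a x i ≠ a y i :=
        eventually_all.2 fun x => eventually_all.2 fun y => by
          by_cases hxy : x = y
          · exact Eventually.of_forall fun n h => absurd hxy h
          · by_cases hj : j x = j y
            · have h1 : ∃ i, a x i ≠ a y i := by
                by_contra hcon
                push Not at hcon
                apply hxy
                apply Subtype.ext
                rw [← ha x, ← ha y, hj, funext hcon]
              obtain ⟨i, hi⟩ := h1
              filter_upwards [eventually_ge_atTop i] with n hn _ _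
              exact ⟨⟨i, by omega⟩, hi⟩
            · exact Eventually.of_forall fun n _ h => absurd h hj
      filter_upwards [ev1, ev2, ev3, ev4] with n h1 h2 h3 h4
      let px : T → Pc n := fun x => pc (j x) (a x) n (h1 x)
      have hpx : Function.Injective px := by
        intro x y hxy
        by_contra hne
        have h5 : j x = j y := by
          have := congrArg (fun p : Pc n => (p.1 : ℕ)) hxy
          exact this
        obtain ⟨i, hi⟩ := h4 x y hne h5
        apply hi
        have := congrFun (congrArg Prod.snd hxy) i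
        exact this
      let A : Pc n → K := Function.extend px a
        (fun p => fun i => if h : i < n + 1 then p.2 ⟨i, h⟩ else false)
      have hA : ∀ p, At n p (A p) := by
        intro p
        by_cases hp : ∃ x, px x = p
        · obtain ⟨x, rfl⟩ := hp
          simp only [A, hpx.extend_apply]
          intro i
          rfl
        · simp only [A, Function.extend_apply' _ _ _ hp]
          intro i
          have hi : (i : ℕ) < n + 1 := i.2
          simp only [hi, dif_pos]
      have h5 := hmain n A hA (fun l => Function.extend px (fun x => L l x) 0)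
        (fun l => ⟨m l, h2 l⟩) (by
          intro l p
          by_cases hp : ∃ x, px x = p
          · obtain ⟨x, rfl⟩ := hp
            rw [hpx.extend_apply]
            exact h3 l x
          · rw [Function.extend_apply' _ _ _ hp]
            simp)
      convert h5 using 1
      funext l
      rw [hgL l, hm l, sum_finsupp (hTsub l)]
      congr 1
      apply Fintype.sum_of_injective px hpx
      · intro p hp
        rw [Function.extend_apply' _ _ _ (by simpa using hp)]
        simp
      · intro x
        rw [hpx.extend_apply]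
        simp only [A, hpx.extend_apply]
        congr 2
        exact (ha x).symm

end

end Pool.Agent.T2H65.BG
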