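import Pool.Agent.T2H65.BG.Emb

/-!
# Products of perfect sets inside nonmeager Borel sets
-/

set_option autoImplicit false

namespace Pool.Agent.T2H65.BG

open Set Topology Filter

section

variable {J : Type*}

/-- the product of the maps `(η j).act` -/
def actJ (η : J → Emb) (a : J → K) : J → K := fun j => (η j).act (a j)

/-- the box of all points with the initial segments `v j` -/
def Box (v : J → W) : Set (J → K) := {y | ∀ j, IsPre (v j) (y j)}

theorem box_nonempty (v : J → W) : (Box v).Nonempty :=
  ⟨fun j => (sh (v j)).act fun _ => false, fun j => isPre_sh _ _⟩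

theorem Box.anti {v w : J → W} (h : ∀ j, v j <+: w j) : Box w ⊆ Box v :=
  fun _ hy j => (hy j).of_prefix (h j)

theorem exists_box_subset {O : Set (J → K)} (hO : IsOpen O) {y : J → K} (hy : y ∈ O) :
    ∃ N : ℕ, Box (fun j => pre (y j) N) ⊆ O := by
  by_contra hcon
  push Not at hcon
  have h1 : ∀ N : ℕ, ∃ z ∈ Box (fun j => pre (y j) N), z ∉ O := fun N => by
    simpa [Set.not_subset] using hcon N
  choose z hz1 hz2 using h1
  have h2 : Tendsto z atTop (𝓝 y) := by
    refine tendsto_pi_nhds.2 fun j => tendsto_pi_nhds.2 fun i => ?_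
    refine tendsto_const_nhds.congr' ?_
    filter_upwards [eventually_gt_atTop i] with N hN
    have h3 := isPre_iff.1 (hz1 N j) i (by simpa using hN)
    rw [pre_getD _ hN] at h3
    exact h3
  obtain ⟨N, hN⟩ := (h2.eventually (hO.mem_nhds hy)).exists
  exact hz2 N hN

variable [Finite J]

theorem isOpen_box (v : J → W) : IsOpen (Box v) := by
  have h : Box v = ⋂ j, ⋂ i ∈ Finset.range (v j).length,
      {y : J → K | y j i = (v j).getD i false} := by
    ext y
    simp only [Box, mem_ofPred_eq, isPre_iff, mem_iInter, Finset.mem_range]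
    exact ⟨fun h j i hi => (h j i hi).symm, fun h j i hi => (h j i hi).symm⟩
  rw [h]
  refine isOpen_iInter_of_finite fun j => isOpen_biInter_finset fun i _ => ?_
  have h2 : Continuous fun y : J → K => y j i := (continuous_apply i).comp (continuous_apply j)
  exact (isOpen_discrete {(v j).getD i false}).preimage h2

/-- Meeting finitely many dense requirements. -/
theorem finite_meet {P C : Type*} (r : P → P → Prop) (hrefl : ∀ p, r p p)
    (htrans : ∀ p q s, r p q → r q s → r p s) {S : Set C} (hS : S.Finite) (Q : C → P → Prop)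
    (hup : ∀ c p q, Q c p → r p q → Q c q) (hd : ∀ c ∈ S, ∀ p, ∃ q, r p q ∧ Q c q) (p : P) :
    ∃ q, r p q ∧ ∀ c ∈ S, Q c q := by
  induction S, hS using Set.Finite.induction_on with
  | empty => exact ⟨p, hrefl p, fun c hc => absurd hc (notMem_empty c)⟩
  | @insert c S _ _ ih =>
    obtain ⟨q, h1, h2⟩ := ih fun c' hc' => hd c' (mem_insert_of_mem _ hc')
    obtain ⟨q', h3, h4⟩ := hd c (mem_insert _ _) q
    refine ⟨q', htrans _ _ _ h1 h3, ?_⟩
    rintro c' (rfl | hc')
    · exact h4
    · exact hup _ _ _ (h2 c' hc') h3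

open Classical in
/-- one step of the construction -/
theorem shrink (v : J → W) {O : Set (J → K)} (hO : IsOpen O)
    (hd : ∀ v' : J → W, (∀ j, v j <+: v' j) → (Box v' ∩ O).Nonempty) (m : ℕ)
    (p : J → W → W) (hp : ∀ j s, v j <+: p j s) :
    ∃ q : J → W → W, (∀ j s, p j s <+: q j s) ∧
      ∀ c : J → W, (∀ j, (c j).length = m) → Box (fun j => q j (c j)) ⊆ O := by
  let P := {p : J → W → W // ∀ j s, v j <+: p j s}
  have hfin : {c : J → W | ∀ j, (c j).length = m}.Finite := by
    have := Set.Finite.pi' (ι := J) (t := fun _ => {s : W | s.length = m})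
      fun _ => List.finite_length_eq Bool m
    exact this
  obtain ⟨q, h1, h2⟩ := finite_meet (P := P) (C := J → W)
    (fun p q => ∀ j s, p.1 j s <+: q.1 j s) (fun p j s => List.prefix_rfl)
    (fun p q s h1 h2 j t => (h1 j t).trans (h2 j t)) hfin
    (fun c p => Box (fun j => p.1 j (c j)) ⊆ O)
    (fun c p q h1 h2 => (Box.anti fun j => h2 j (c j)).trans h1) (by
      rintro c hc ⟨p, hp⟩
      obtain ⟨y, hy1, hy2⟩ := hd (fun j => p j (c j)) (fun j => hp j (c j))
      obtain ⟨N, hN⟩ := exists_box_subset hO hy2
      have key : ∀ j s, p j s <+: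
          (if s = c j then pre (y j) (max N (p j s).length) else p j s) := by
        intro j s
        by_cases h : s = c j
        · rw [if_pos h]
          have h1 : IsPre (p j s) (y j) := by
            rw [h]
            exact hy1 j
          unfold IsPre at h1
          conv_lhs => rw [← h1]
          exact pre_prefix _ (le_max_right _ _)
        · rw [if_neg h]
      refine ⟨⟨fun j s => if s = c j then pre (y j) (max N (p j s).length) else p j s,
        fun j s => (hp j s).trans (key j s)⟩, key, ?_⟩
      refine subset_trans (Box.anti fun j => ?_) hN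
      simp only [if_true]
      exact pre_prefix _ (le_max_left _ _)) ⟨p, hp⟩
  exact ⟨q.1, h1, h2⟩

/-- append the last digit -/
def extp (p : J → W → W) : J → W → W := fun j s => p j s.dropLast ++ s.drop (s.length - 1)

omit [Finite J] in
theorem extp_concat (p : J → W → W) (j : J) (s : W) (b : Bool) :
    extp p j (s ++ [b]) = p j s ++ [b] := by
  simp [extp]

/-- The product of perfect sets inside a countable intersection of dense open sets. -/
theorem km (v : J → W) (O : ℕ → Set (J → K)) (hO : ∀ l, IsOpen (O l))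
    (hd : ∀ l (v' : J → W), (∀ j, v j <+: v' j) → (Box v' ∩ O l).Nonempty) :
    ∃ η : J → Emb, ∀ a, actJ η a ∈ Box v ∧ ∀ l, actJ η a ∈ O l := by
  let P := {p : J → W → W // ∀ j s, v j <+: p j s}
  have step : ∀ (l : ℕ) (p : P), ∃ q : P, (∀ j s, extp p.1 j s <+: q.1 j s) ∧
      ∀ c : J → W, (∀ j, (c j).length = l + 1) → Box (fun j => q.1 j (c j)) ⊆ O l := by
    intro l p
    have hp : ∀ j s, v j <+: extp p.1 j s := fun j s =>
      (p.2 j _).trans (List.prefix_append _ _)
    obtain ⟨q, h1, h2⟩ := shrink v (hO l) (hd l) (l + 1) (extp p.1) hp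
    exact ⟨⟨q, fun j s => (hp j s).trans (h1 j s)⟩, h1, h2⟩
  choose nx hnx1 hnx2 using step
  let T : ℕ → P := fun n => Nat.rec ⟨fun j _ => v j, fun j s => List.prefix_rfl⟩
    (fun l p => nx l p) n
  have hT : ∀ l, T (l + 1) = nx l (T l) := fun l => rfl
  let η : J → Emb := fun j =>
    { f := fun s => (T s.length).1 j s
      ext' := by
        intro s b
        rw [List.length_append, List.length_singleton, hT]
        have := hnx1 s.length (T s.length) j (s ++ [b])
        rwa [extp_concat] at this }
  refine ⟨η, fun a => ⟨fun j => ?_, fun l => ?_⟩⟩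
  · have := (η j).isPre_act (a j) 0
    exact this
  · apply hnx2 l (T l) (fun j => pre (a j) (l + 1)) (fun j => pre_length _ _)
    intro j
    have h1 := (η j).isPre_act (a j) (l + 1)
    have h2 : (η j).f (pre (a j) (l + 1)) = (nx l (T l)).1 j (pre (a j) (l + 1)) := by
      change (T (pre (a j) (l + 1)).length).1 j (pre (a j) (l + 1)) = _
      rw [pre_length, hT]
    rw [h2] at h1
    exact h1

/-- If countably many Borel sets cover the product, one of them contains a product of perfect
sets. -/
theorem one_step {ι : Type*} [Countable ι] (B : ι → Set (J → K))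
    (hB : ∀ i, MeasurableSet (B i)) (hcov : ∀ y, ∃ i, y ∈ B i) :
    ∃ i, ∃ η : J → Emb, ∀ a, actJ η a ∈ B i := by
  have : Countable J := Finite.to_countable
  choose U hU hBU using fun i => (hB i).residualEq_isOpen
  have h1 : ∃ i, (U i).Nonempty := by
    by_contra hcon
    push Not at hcon
    have h2 : ∀ i, ∀ᶠ y in residual (J → K), y ∉ B i := by
      intro i
      filter_upwards [Filter.EventuallyEq.mem_iff (hBU i)] with y hy
      intro hyB
      have h3 : y ∈ U i := hy.1 hyB
      rw [hcon i] at h3
      exact h3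
    have h3 := eventually_countable_forall.2 h2
    obtain ⟨y, hy⟩ := (dense_of_mem_residual h3).nonempty
    obtain ⟨i, hi⟩ := hcov y
    exact hy i hi
  obtain ⟨i, y, hy⟩ := h1
  obtain ⟨N, hN⟩ := exists_box_subset (hU i) hy
  have h4 : {z | z ∈ U i → z ∈ B i} ∈ residual (J → K) := by
    filter_upwards [Filter.EventuallyEq.mem_iff (hBU i)] with z hz hzU
    exact hz.2 hzU
  obtain ⟨S, hS1, hS2, hS3, hS4⟩ := mem_residual_iff.1 h4
  obtain ⟨O, hO⟩ := (hS3.insert univ).exists_eq_range (insert_nonempty _ _)
  have hOo : ∀ l, IsOpen (O l) ∧ Dense (O l) := by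
    intro l
    have : O l ∈ insert univ S := by
      rw [hO]
      exact mem_range_self l
    rcases this with h | h
    · rw [h]
      exact ⟨isOpen_univ, dense_univ⟩
    · exact ⟨hS1 _ h, hS2 _ h⟩
  obtain ⟨η, hη⟩ := km (fun j => pre (y j) N) O (fun l => (hOo l).1) fun l v' _ =>
    (hOo l).2.inter_open_nonempty _ (isOpen_box v') (box_nonempty v')
  refine ⟨i, η, fun a => ?_⟩
  have h5 : actJ η a ∈ ⋂₀ S := by
    intro t ht
    have h6 : t ∈ insert univ S := mem_insert_of_mem _ ht
    rw [hO] at h6
    obtain ⟨l, rfl⟩ := h6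
    exact (hη a).2 l
  exact hS4 h5 (hN (hη a).1)

end

end Pool.Agent.T2H65.BG
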