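import Pool.Agent.T2H65.BG.Poset

/-!
# The construction under the continuum hypothesis
-/

set_option autoImplicit false

namespace Pool.Agent.T2H65.BG

open Set Topology Filter Cardinal

section

variable {H : Type} [AddCommGroup H] [TopologicalSpace H] [IsTopologicalAddGroup H]
  [SecondCountableTopology H] [MeasurableSpace H] [BorelSpace H] {e : K → H} (he : Continuous e)

/-- a task: a number `k` and a sequence of countable families of Borel subsets of `H ^ k` -/
def Task (H : Type) [MeasurableSpace H] : Type :=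
  Σ k : ℕ, {V : ℕ → ℕ → Set (Fin k → H) // ∀ n i, MeasurableSet (V n i)}

instance : Nonempty (Task H) := ⟨⟨0, ⟨fun _ _ => ∅, fun _ _ => MeasurableSet.empty⟩⟩⟩

omit [AddCommGroup H] [IsTopologicalAddGroup H] in
theorem mk_task_le : #(Task H) ≤ 𝔠 := by
  have h1 : ∀ k : ℕ, #{V : ℕ → ℕ → Set (Fin k → H) // ∀ n i, MeasurableSet (V n i)} ≤ 𝔠 := by
    intro k
    have h2 : #{s : Set (Fin k → H) // MeasurableSet s} ≤ 𝔠 := by
      obtain ⟨b, hb, hb2⟩ := MeasurableSpace.CountablyGenerated.isCountablyGenerated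
        (α := Fin k → H)
      have h3 := MeasurableSpace.cardinal_measurableSet_le_continuum (s := b)
        (hb.le_aleph0.trans aleph0_le_continuum)
      rw [← hb2] at h3
      exact h3
    have h4 : #{V : ℕ → ℕ → Set (Fin k → H) // ∀ n i, MeasurableSet (V n i)} ≤
        #(ℕ → ℕ → {s : Set (Fin k → H) // MeasurableSet s}) := by
      refine mk_le_of_injective (f := fun V n i => ⟨V.1 n i, V.2 n i⟩) ?_
      intro V V' h
      apply Subtype.ext
      funext n i
      exact congrArg Subtype.val (congrFun (congrFun h n) i)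
    refine h4.trans ?_
    have h5 : #(ℕ → ℕ → {s : Set (Fin k → H) // MeasurableSet s}) =
        (#{s : Set (Fin k → H) // MeasurableSet s} ^ ℵ₀) ^ ℵ₀ := by
      simp
    rw [h5]
    calc (#{s : Set (Fin k → H) // MeasurableSet s} ^ ℵ₀) ^ ℵ₀ ≤ (𝔠 ^ ℵ₀) ^ ℵ₀ :=
          power_le_power_right (power_le_power_right h2)
      _ = 𝔠 := by rw [continuum_power_aleph0, continuum_power_aleph0]
  calc #(Task H) = sum fun k : ℕ =>
        #{V : ℕ → ℕ → Set (Fin k → H) // ∀ n i, MeasurableSet (V n i)} := mk_sigma _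
    _ ≤ sum fun _ : ℕ => 𝔠 := sum_le_sum _ _ h1
    _ = 𝔠 := by simp

/-- `V` is not an `ω`-cover of the `k`-th power of the group generated by `X` -/
def Bad (e : K → H) (X : Set K) {k : ℕ} (V : ℕ → ℕ → Set (Fin k → H)) : Prop :=
  ∃ (n : ℕ) (F : Set (Fin k → H)), F.Finite ∧ (∀ g ∈ F, ∀ l, g l ∈ Gp e X) ∧ ∀ i, ¬ F ⊆ V n i

/-- a selection which is good for all elements of the `k`-th power of the group generated
by `X` -/
def Good (e : K → H) (X : Set K) {k : ℕ} (V : ℕ → ℕ → Set (Fin k → H)) : Prop :=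
  ∃ s : ℕ → ℕ, ∀ g : Fin k → H, (∀ l, g l ∈ Gp e X) → ∀ᶠ n in atTop, g ∈ V n (s n)

/-- the requirement for the `i`-th step -/
def Req (e : K → H) (t : Task H) (p q : Cond) : Prop :=
  (∃ x ∈ q.X, x ∉ p.X) ∧ (Bad e q.X t.2.1 ∨ Good e (q.X ∪ Rg q.P) t.2.1)

theorem exists_new {X : Set K} (hX : X.Countable) {P : Set Emb} (hne : P.Nonempty) :
    ∃ x ∈ Rg P, x ∉ X := by
  have h5 : ℵ₀ < #K := by
    have h6 : #K = 2 ^ ℵ₀ := by simp
    rw [h6]
    exact cantor _
  obtain ⟨τ, hτ⟩ := hne
  by_contra hcon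
  push Not at hcon
  have h1 : range τ.act ⊆ X := by
    rintro _ ⟨a, rfl⟩
    exact hcon _ ⟨τ, hτ, a, rfl⟩
  have h2 : (range τ.act).Countable := hX.mono h1
  have h3 : Countable K := by
    have h4 : (τ.act ⁻¹' range τ.act).Countable := h2.preimage τ.act_injective
    rw [preimage_range] at h4
    exact countable_univ_iff.1 h4
  exact absurd (mk_le_aleph0_iff.2 h3) (not_le.2 h5)

include he in
theorem exists_req (t : Task H) (p : Cond) : ∃ q, Le q p ∧ Req e t p q := by
  obtain ⟨k, V, hV⟩ := t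
  rcases dichotomy he p.hX p.hP p.hne V hV with ⟨n, F, Y, h1, h2, h3, h4, h5⟩ |
    ⟨P', s, h1, h2, h3, h4, h5⟩
  · obtain ⟨x, hx1, hx2⟩ := exists_new p.hX p.hne
    refine ⟨⟨insert x (p.X ∪ Y), p.P, (p.hX.union h2.countable).insert x, p.hP, p.hne⟩, ?_, ?_⟩
    · refine ⟨?_, ?_, fun τ h => ⟨τ, h, Emb.one, rfl⟩, fun τ h k => ⟨τ, h, Emb.one, lev_one k, rfl⟩⟩
      · exact subset_union_left.trans (subset_insert _ _)
      · exact insert_subset (Or.inr hx1) (union_subset_union_right _ h3)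
    · refine ⟨⟨x, mem_insert _ _, hx2⟩, Or.inl ⟨n, F, h1, fun g hg l => ?_, h5⟩⟩
      exact gp_mono e (subset_insert _ _) (h4 g hg l)
  · obtain ⟨x, hx1, hx2⟩ := exists_new p.hX h2
    refine ⟨⟨insert x p.X, P', p.hX.insert x, h1, h2⟩, ?_, ?_⟩
    · refine ⟨subset_insert _ _, ?_, h3, h4⟩
      exact insert_subset (Or.inr (rg_mono h3 hx1)) subset_union_left
    · refine ⟨⟨x, mem_insert _ _, hx2⟩, Or.inr ⟨s, fun g hg => h5 g fun l => ?_⟩⟩
      refine gp_mono e ?_ (hg l)
      rintro y (hy | hy)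
      · rcases mem_insert_iff.1 hy with rfl | hy
        · exact Or.inr hx1
        · exact Or.inl hy
      · exact Or.inr hy

include he in
/-- The main theorem of the construction. -/
theorem exists_set (hCH : (𝔠 : Cardinal.{0}) = ℵ₁) : ∃ X : Set K, #X = 𝔠 ∧
    ∀ (k : ℕ) (V : ℕ → ℕ → Set (Fin k → H)), (∀ n i, MeasurableSet (V n i)) →
      Bad e X V ∨ Good e X V := by
  classical
  let I := (ℵ₁ : Cardinal.{0}).ord.ToType
  have hI : #I = ℵ₁ := mk_ord_toType _
  have hIc : ∀ i : I, (Iio i).Countable := by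
    intro i
    rw [countable_iff_lt_aleph_one]
    exact mk_Iio_toType_ord_lt i
  have hne : Nonempty I := by
    rw [← mk_ne_zero_iff, hI]
    exact (aleph0_pos.trans aleph0_lt_aleph_one).ne'
  have h1 : #(Task H) ≤ #I := by
    rw [hI, ← hCH]
    exact mk_task_le
  obtain ⟨f⟩ := h1
  let t : I → Task H := Function.invFun f
  have ht : Function.Surjective t := Function.invFun_surjective f.injective
  have : Nonempty Cond := ⟨⟨∅, {Emb.one}, countable_empty, countable_singleton _, singleton_nonempty _⟩⟩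
  obtain ⟨c, d, h2, h3⟩ := exists_chain Le hIc Le.refl (fun _ _ _ => Le.trans) lower_seq
    (fun i => Req e (t i)) (fun i p => exists_req he (t i) p)
  have hle : ∀ i j, j < i → Le (c i) (c j) := fun i j hij => (h2 i).1.trans (h3 i j hij)
  let X : Set K := ⋃ i, (c i).X
  have hX : ∀ i, X ⊆ (c i).X ∪ Rg (c i).P := by
    intro i x hx
    obtain ⟨j, hj⟩ := mem_iUnion.1 hx
    rcases lt_trichotomy i j with h | h | h
    · exact (hle j i h).new hj
    · rw [h]
      exact Or.inl hj
    · exact Or.inl ((hle i j h).sub hj)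
  refine ⟨X, ?_, ?_⟩
  · apply le_antisymm
    · refine (mk_set_le X).trans ?_
      simp
    · rw [hCH, ← hI]
      choose x hx1 hx2 using fun i => (h2 i).2.1
      refine mk_le_of_injective (f := fun i => (⟨x i, mem_iUnion.2 ⟨i, hx1 i⟩⟩ : X)) ?_
      have key : ∀ i j, i < j → x i ≠ x j := by
        intro i j hij h
        apply hx2 j
        rw [← h]
        exact (h3 j i hij).sub (hx1 i)
      intro i j hij
      have hij' : x i = x j := congrArg Subtype.val hij
      by_contra hne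
      rcases lt_or_gt_of_ne hne with h | h
      · exact key i j h hij'
      · exact key j i h hij'.symm
  · intro k V hV
    obtain ⟨i, hi⟩ := ht ⟨k, V, hV⟩
    have h4 := (h2 i).2.2
    rw [hi] at h4
    rcases h4 with ⟨n, F, h5, h6, h7⟩ | ⟨s, hs⟩
    · exact Or.inl ⟨n, F, h5, fun g hg l => gp_mono e (subset_iUnion (fun i => (c i).X) i) (h6 g hg l), h7⟩
    · exact Or.inr ⟨s, fun g hg => hs g fun l => gp_mono e (hX i) (hg l)⟩

end

end Pool.Agent.T2H65.BG
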