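import Pool.Agent.T2H65.BG.Group

/-!
# The poset of conditions, and the construction of length `ω₁`
-/

set_option autoImplicit false

namespace Pool.Agent.T2H65.BG

open Set Topology Filter

/-- A condition: a countable set of points of the Cantor space and a countable nonempty set of
tree embeddings. -/
structure Cond where
  /-- the points decided so far -/
  X : Set K
  /-- the perfect sets from which all further points are taken -/
  P : Set Emb
  hX : X.Countable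
  hP : P.Countable
  hne : P.Nonempty

/-- `q` is stronger than `p` -/
structure Le (q p : Cond) : Prop where
  sub : p.X ⊆ q.X
  new : q.X ⊆ p.X ∪ Rg p.P
  below : ∀ τ' ∈ q.P, ∃ τ ∈ p.P, ∃ ρ, τ' = τ.comp ρ
  rich : ∀ τ ∈ p.P, ∀ k, ∃ τ' ∈ q.P, ∃ ρ, Lev k ρ ∧ τ' = τ.comp ρ

theorem rg_mono {P Q : Set Emb} (h : ∀ τ' ∈ Q, ∃ τ ∈ P, ∃ ρ, τ' = τ.comp ρ) : Rg Q ⊆ Rg P := by
  rintro _ ⟨τ', hτ', a, rfl⟩
  obtain ⟨τ, hτ, ρ, rfl⟩ := h τ' hτ'
  exact ⟨τ, hτ, ρ.act a, (Emb.act_comp _ _ _).symm⟩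

theorem Le.refl (p : Cond) : Le p p :=
  ⟨Subset.rfl, subset_union_left, fun τ h => ⟨τ, h, Emb.one, rfl⟩,
    fun τ h k => ⟨τ, h, Emb.one, lev_one k, rfl⟩⟩

theorem Le.trans {p q r : Cond} (h1 : Le p q) (h2 : Le q r) : Le p r := by
  refine ⟨h2.sub.trans h1.sub, ?_, ?_, ?_⟩
  · intro x hx
    rcases h1.new hx with h | h
    · exact h2.new h
    · exact Or.inr (rg_mono h2.below h)
  · intro τ hτ
    obtain ⟨τ', h3, ρ, rfl⟩ := h1.below τ hτ
    obtain ⟨τ'', h4, ρ', rfl⟩ := h2.below τ' h3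
    exact ⟨τ'', h4, ρ'.comp ρ, rfl⟩
  · intro τ hτ k
    obtain ⟨τ', h3, ρ, h4, rfl⟩ := h2.rich τ hτ k
    obtain ⟨τ'', h5, ρ', h6, rfl⟩ := h1.rich _ h3 k
    exact ⟨_, h5, ρ.comp ρ', h4.comp h6, rfl⟩

theorem le_of_le {p : ℕ → Cond} (h : ∀ n, Le (p (n + 1)) (p n)) {m n : ℕ} (hmn : m ≤ n) :
    Le (p n) (p m) := by
  induction n, hmn using Nat.le_induction with
  | base => exact Le.refl _
  | succ n _ ih => exact (h n).trans ih

/-- Decreasing sequences of conditions have lower bounds. -/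
theorem lower_seq (p : ℕ → Cond) (h : ∀ n, Le (p (n + 1)) (p n)) : ∃ q, ∀ n, Le q (p n) := by
  classical
  have h1 : ∀ n (τ : (p n).P) (m : ℕ), ∃ (τ' : (p (n + 1)).P) (ρ : Emb),
      Lev m ρ ∧ τ'.1 = τ.1.comp ρ := by
    intro n τ m
    obtain ⟨τ', h1, ρ, h2, h3⟩ := (h n).rich τ.1 τ.2 m
    exact ⟨⟨τ', h1⟩, ρ, h2, h3⟩
  choose nx rx hrx hnx using h1
  let σ : ∀ (n : ℕ) (_ : (p n).P) (_ : ℕ) (i : ℕ), (p (n + i)).P := fun n τ k i =>
    Nat.rec (motive := fun i => (p (n + i)).P) τ (fun i t => nx (n + i) t (k + i + 1)) i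
  let ρ : ∀ (n : ℕ) (_ : (p n).P) (_ : ℕ) (_ : ℕ), Emb := fun n τ k i =>
    rx (n + i) (σ n τ k i) (k + i + 1)
  have hρ : ∀ n τ k i, Lev (k + i + 1) (ρ n τ k i) := fun n τ k i => hrx _ _ _
  have hρ' : ∀ n τ k i, Lev (i + 1) (ρ n τ k i) := fun n τ k i => (hρ n τ k i).mono (by omega)
  have hσ : ∀ n τ k i, (σ n τ k i).1 = τ.1.comp (it (ρ n τ k) i) := by
    intro n τ k i
    induction i with
    | zero => rfl
    | succ i ih =>
      have h2 : (σ n τ k (i + 1)).1 = (σ n τ k i).1.comp (ρ n τ k i) := hnx _ _ _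
      rw [h2, ih, it_succ]
      rfl
  let fin : ∀ (n : ℕ) (_ : (p n).P) (_ : ℕ), Emb := fun n τ k => τ.1.comp (lim (ρ n τ k) (hρ' n τ k))
  have hc : ∀ n, Countable (p n).P := fun n => (p n).hP
  let q : Cond :=
    { X := ⋃ n, (p n).X
      P := range fun z : Σ n : ℕ, (p n).P × ℕ => fin z.1 z.2.1 z.2.2
      hX := countable_iUnion fun n => (p n).hX
      hP := countable_range _
      hne := by
        obtain ⟨τ, hτ⟩ := (p 0).hne
        exact ⟨_, ⟨⟨0, ⟨τ, hτ⟩, 0⟩, rfl⟩⟩ }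
  refine ⟨q, fun m => ⟨subset_iUnion (fun n => (p n).X) m, ?_, ?_, ?_⟩⟩
  · intro x hx
    obtain ⟨n, hn⟩ := mem_iUnion.1 hx
    rcases le_total n m with hnm | hnm
    · exact Or.inl ((le_of_le h hnm).sub hn)
    · exact (le_of_le h hnm).new hn
  · rintro _ ⟨⟨n, τ, k⟩, rfl⟩
    rcases le_total n m with hnm | hnm
    · obtain ⟨i, rfl⟩ := Nat.exists_eq_add_of_le hnm
      refine ⟨(σ n τ k i).1, (σ n τ k i).2, lim (fun j => ρ n τ k (i + j))
        (shift_lev (hρ' n τ k) i), ?_⟩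
      rw [hσ]
      change τ.1.comp (lim (ρ n τ k) (hρ' n τ k)) = _
      rw [lim_split _ _ i]
      rfl
    · obtain ⟨τ', h3, ρ', h4⟩ := (le_of_le h hnm).below τ.1 τ.2
      refine ⟨τ', h3, ρ'.comp (lim (ρ n τ k) (hρ' n τ k)), ?_⟩
      change τ.1.comp (lim (ρ n τ k) (hρ' n τ k)) = _
      rw [h4]
      rfl
  · intro τ hτ k
    refine ⟨_, ⟨⟨m, ⟨τ, hτ⟩, k⟩, rfl⟩, lim (ρ m ⟨τ, hτ⟩ k) (hρ' m ⟨τ, hτ⟩ k), ?_, rfl⟩
    exact lim_lev _ fun i => (hρ m ⟨τ, hτ⟩ k i).mono (by omega)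

section chain

variable {Q I : Type*} (r : Q → Q → Prop)

/-- countable chains have lower bounds -/
theorem lower_countable (hrefl : ∀ p, r p p) (htrans : ∀ p q s, r p q → r q s → r p s)
    (hlow : ∀ p : ℕ → Q, (∀ n, r (p (n + 1)) (p n)) → ∃ q, ∀ n, r q (p n)) [Nonempty Q]
    {A : Set Q} (hA : A.Countable) (hch : ∀ a ∈ A, ∀ b ∈ A, r a b ∨ r b a) :
    ∃ q, ∀ a ∈ A, r q a := by
  classical
  rcases A.eq_empty_or_nonempty with rfl | hne
  · exact ⟨Classical.arbitrary Q, fun a ha => absurd ha (notMem_empty a)⟩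
  obtain ⟨a, ha⟩ := hA.exists_eq_range hne
  have haA : ∀ n, a n ∈ A := fun n => by rw [ha]; exact mem_range_self n
  let b : ℕ → Q := fun n => Nat.rec (a 0) (fun n x => if r x (a (n + 1)) then x else a (n + 1)) n
  have hb : ∀ n, b (n + 1) = if r (b n) (a (n + 1)) then b n else a (n + 1) := fun _ => rfl
  have hbA : ∀ n, b n ∈ A := by
    intro n
    induction n with
    | zero => exact haA 0
    | succ n ih =>
      rw [hb]
      split_ifs
      · exact ih
      · exact haA _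
  have h1 : ∀ n, r (b (n + 1)) (b n) := by
    intro n
    rw [hb]
    split_ifs with h
    · exact hrefl _
    · exact (hch _ (hbA n) _ (haA (n + 1))).resolve_left h
  have h2 : ∀ n, r (b n) (a n) := by
    intro n
    cases n with
    | zero => exact hrefl _
    | succ n =>
      rw [hb]
      split_ifs with h
      · exact h
      · exact hrefl _
  obtain ⟨q, hq⟩ := hlow b h1
  refine ⟨q, fun x hx => ?_⟩
  rw [ha] at hx
  obtain ⟨n, rfl⟩ := hx
  exact htrans _ _ _ (hq n) (h2 n)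

/-- The recursion. -/
theorem exists_chain [LinearOrder I] [WellFoundedLT I] (hI : ∀ i : I, (Iio i).Countable)
    (hrefl : ∀ p, r p p) (htrans : ∀ p q s, r p q → r q s → r p s)
    (hlow : ∀ p : ℕ → Q, (∀ n, r (p (n + 1)) (p n)) → ∃ q, ∀ n, r q (p n)) [Nonempty Q]
    (D : I → Q → Q → Prop) (hD : ∀ i p, ∃ q, r q p ∧ D i p q) :
    ∃ c d : I → Q, (∀ i, r (c i) (d i) ∧ D i (d i) (c i)) ∧ ∀ i j, j < i → r (d i) (c j) := by
  classical
  choose nx hnx1 hnx2 using hD
  let lb : ∀ i : I, (∀ j, j < i → Q) → Q := fun i prev =>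
    if h : ∃ q, ∀ j hj, r q (prev j hj) then h.choose else Classical.arbitrary Q
  let c : I → Q := WellFoundedLT.fix fun i prev => nx i (lb i prev)
  let d : I → Q := fun i => lb i fun j _ => c j
  have hc : ∀ i, c i = nx i (d i) := fun i => WellFoundedLT.fix_eq _ i
  have key : ∀ i j, j < i → r (d i) (c j) := by
    intro i
    induction i using WellFoundedLT.induction with
    | ind i ih =>
      have h1 : ∃ q, ∀ j (_ : j < i), r q (c j) := by
        obtain ⟨q, hq⟩ := lower_countable r hrefl htrans hlow ((hI i).image c) (by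
          rintro _ ⟨a, ha, rfl⟩ _ ⟨b, hb, rfl⟩
          rcases lt_trichotomy a b with h | h | h
          · right
            refine htrans _ _ _ ?_ (ih b hb a h)
            rw [hc b]
            exact hnx1 _ _
          · left
            rw [h]
            exact hrefl _
          · left
            refine htrans _ _ _ ?_ (ih a ha b h)
            rw [hc a]
            exact hnx1 _ _)
        exact ⟨q, fun j hj => hq _ (mem_image_of_mem c hj)⟩
      have h2 : d i = h1.choose := dif_pos h1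
      intro j hj
      rw [h2]
      exact h1.choose_spec j hj
  refine ⟨c, d, fun i => ?_, key⟩
  rw [hc]
  exact ⟨hnx1 _ _, hnx2 _ _⟩

end chain

end Pool.Agent.T2H65.BG
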